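import Mathlib
import Pool.Agent.Results.MP_f76ce6_lc.ConstantOperations

/-!
# Classes `V_n` that fail ACC and whose isomorphism relation is not `Σ⁰₃`-complete

The basic definitions (signatures, terms, algebras, varieties, the presented algebras
`V_n[W_e]`, their isomorphism relation, computable reducibility, `Σ⁰₃`-completeness) are those of
`Pool/Agent/Results/MP_f76ce6_lc/ConstantOperations.lean`.
-/

set_option autoImplicit false

namespace Pool.Agent.Results.MP_aec1d5_lc.FailsACCNotComplete

open Pool.Agent.Results.MP_f76ce6_lc.ConstantOperations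

/-! ### Definitions used in the statement -/

/-- The codes of the terms in the variables `x_0, x_1, …`. -/
def codeN {S : Sig} : Tm S ℕ → ℕ
  | .var i => 2 * i
  | .app k _ f => 2 * Nat.pair k (Encodable.encode (List.ofFn fun i => codeN (f i))) + 1

/-- The set of the laws of the variety is computably enumerable. -/
def CELaws {S : Sig} (V : Variety S) : Prop :=
  REPred fun c : ℕ => ∃ p ∈ V, c = Nat.pair (codeN p.1) (codeN p.2)

/-- `r` is a congruence of the algebra `A`. -/
def IsCongruence {S : Sig} (A : Alg S) (r : Setoid A.carrier) : Prop :=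
  ∀ k h v w, (∀ i, r (v i) (w i)) → r (A.op k h v) (A.op k h w)

/-- The ascending chain condition for the congruences of `A`: there is no strictly ascending
sequence of congruences. -/
def ACC {S : Sig} (A : Alg S) : Prop :=
  ¬ ∃ c : ℕ → Setoid A.carrier, StrictMono c ∧ ∀ m, IsCongruence A (c m)

/-- The class `V_n` satisfies ACC: every algebra `V_n[W_e]` does. -/
def ClassACC {S : Sig} (V : Variety S) (n : ℕ) : Prop := ∀ e, ACC (Pres V n e)

/-! ### Proofs -/

open Encodable Pool.Agent.Helper578.JD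

theorem ceLaws (ar : ℕ → ℕ) (har : Computable ar) : CELaws (constOps ar har) := by
  have h : REPred fun c : ℕ => ∃ (k : ℕ) (l l' : List ℕ), l.length = ar k ∧ l'.length = ar k ∧
      (∀ i < l.length, l[i]? = some (2 * (2 * i))) ∧
      (∀ i < l'.length, l'[i]? = some (2 * (2 * i + 1))) ∧
      c = Nat.pair (2 * Nat.pair k (encode l) + 1) (2 * Nat.pair k (encode l') + 1) := by
    refine RE.ex (p := fun (c k : ℕ) => ∃ (l l' : List ℕ), l.length = ar k ∧ l'.length = ar k ∧
      (∀ i < l.length, l[i]? = some (2 * (2 * i))) ∧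
      (∀ i < l'.length, l'[i]? = some (2 * (2 * i + 1))) ∧
      c = Nat.pair (2 * Nat.pair k (encode l) + 1) (2 * Nat.pair k (encode l') + 1)) ?_
    refine RE.ex (p := fun (x : ℕ × ℕ) (l : List ℕ) => ∃ (l' : List ℕ), l.length = ar x.2 ∧
      l'.length = ar x.2 ∧ (∀ i < l.length, l[i]? = some (2 * (2 * i))) ∧
      (∀ i < l'.length, l'[i]? = some (2 * (2 * i + 1))) ∧
      x.1 = Nat.pair (2 * Nat.pair x.2 (encode l) + 1) (2 * Nat.pair x.2 (encode l') + 1)) ?_
    refine RE.ex (p := fun (x : (ℕ × ℕ) × List ℕ) (l' : List ℕ) => x.2.length = ar x.1.2 ∧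
      l'.length = ar x.1.2 ∧ (∀ i < x.2.length, x.2[i]? = some (2 * (2 * i))) ∧
      (∀ i < l'.length, l'[i]? = some (2 * (2 * i + 1))) ∧
      x.1.1 = Nat.pair (2 * Nat.pair x.1.2 (encode x.2) + 1)
        (2 * Nat.pair x.1.2 (encode l') + 1)) ?_
    refine RE.and (RE.eq (by fun_prop) (har.comp (by fun_prop))) (RE.and (RE.eq (by fun_prop)
      (har.comp (by fun_prop))) (RE.and ?_ (RE.and ?_ (RE.eq (by fun_prop) (by fun_prop)))))
    · exact RE.all_lt (p := fun (x : ((ℕ × ℕ) × List ℕ) × List ℕ) (i : ℕ) =>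
        x.1.2[i]? = some (2 * (2 * i))) (RE.eq (by fun_prop) (by fun_prop))
        (f := fun x => x.1.2.length) (by fun_prop)
    · exact RE.all_lt (p := fun (x : ((ℕ × ℕ) × List ℕ) × List ℕ) (i : ℕ) =>
        x.2[i]? = some (2 * (2 * i + 1))) (RE.eq (by fun_prop) (by fun_prop))
        (f := fun x => x.2.length) (by fun_prop)
  refine h.of_eq fun c => ?_
  have key : ∀ (k : ℕ) (l : List ℕ) (g : ℕ → ℕ), l.length = ar k →
      (∀ i < l.length, l[i]? = some (g i)) → l = List.ofFn fun i : Fin (ar k) => g i := by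
    intro k l g h1 h2
    apply List.ext_getElem?
    intro i
    by_cases hi : i < l.length
    · rw [h2 i hi, List.getElem?_ofFn]
      simp [h1 ▸ hi]
    · rw [List.getElem?_eq_none (l := l) (by omega), List.getElem?_eq_none]
      simp; omega
  constructor
  · rintro ⟨k, l, l', h1, h2, h3, h4, rfl⟩
    refine ⟨_, ⟨k, trivial, rfl⟩, ?_⟩
    rw [key k l _ h1 h3, key k l' _ h2 h4]
    rfl
  · rintro ⟨_, ⟨k, hk, rfl⟩, rfl⟩
    refine ⟨k, List.ofFn fun i : Fin (ar k) => 2 * (2 * (i : ℕ)),
      List.ofFn fun i : Fin (ar k) => 2 * (2 * (i : ℕ) + 1), by simp, by simp, ?_, ?_, rfl⟩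
    · intro i hi
      rw [List.getElem?_ofFn]
      simp only [List.length_ofFn] at hi
      simp [hi]
    · intro i hi
      rw [List.getElem?_ofFn]
      simp only [List.length_ofFn] at hi
      simp [hi]

theorem not_classACC {ar : ℕ → ℕ} {har : Computable ar} {n : ℕ} (hn : 0 < n) :
    ¬ ClassACC (constOps ar har) n := by
  obtain ⟨e0, he0⟩ := recursion (β := ℕ) (P := fun _ _ => False) (RE.const False)
  have hT : ∀ u v, T ar har n e0 u v → u = v := by
    intro u v h
    induction h with
    | refl => rfl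
    | tail _ hbc ih =>
      rcases hbc with ⟨s, t, h1, -, -⟩ | ⟨s, t, h1, -, -⟩
      · exact ((he0 _).1 h1).elim
      · exact ((he0 _).1 h1).elim
  have hc : ∀ {a b}, cK ar har hn e0 a = cK ar har hn e0 b → a = b := by
    intro a b h
    have := hT _ _ ((cK_eq_iff hn).1 h)
    omega
  intro h
  refine h e0 ?_
  let D : ℕ → Set (Pres (constOps ar har) n e0).carrier := fun m =>
    {a | ∃ j ≤ m, a = cK ar har hn e0 j}
  let c : ℕ → Setoid (Pres (constOps ar har) n e0).carrier := fun m =>
    { r := fun a b => a = b ∨ (a ∈ D m ∧ b ∈ D m)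
      iseqv := by
        refine ⟨fun a => Or.inl rfl, ?_, ?_⟩
        · rintro a b (rfl | ⟨h1, h2⟩)
          · exact Or.inl rfl
          · exact Or.inr ⟨h2, h1⟩
        · rintro a b d (rfl | ⟨h1, h2⟩) h3
          · exact h3
          · rcases h3 with rfl | ⟨h3, h4⟩
            · exact Or.inr ⟨h1, h2⟩
            · exact Or.inr ⟨h1, h4⟩ }
  refine ⟨c, strictMono_nat_of_lt_succ fun m => lt_of_le_not_ge ?_ ?_, fun m k hk v w _ => ?_⟩
  · rintro a b (rfl | ⟨⟨i, hi, rfl⟩, ⟨j, hj, rfl⟩⟩)
    · exact Or.inl rfl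
    · exact Or.inr ⟨⟨i, by omega, rfl⟩, ⟨j, by omega, rfl⟩⟩
  · intro hle
    have h1 : c (m + 1) (cK ar har hn e0 (m + 1)) (cK ar har hn e0 0) :=
      Or.inr ⟨⟨m + 1, le_rfl, rfl⟩, ⟨0, by omega, rfl⟩⟩
    rcases hle h1 with h2 | ⟨⟨j, hj, h2⟩, -⟩
    · have := hc h2
      omega
    · have := hc h2
      omega
  · exact Or.inl (by rw [constAlg hn, constAlg hn])

/-- For every computable arity function `ar`, the variety of all algebras with operations of
arities `ar 0, ar 1, …` all of whose operations are constant has a c.e. set of laws, and for all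
`n ≥ 1` the class `V_n` fails ACC while its isomorphism relation is not `Σ⁰₃`-complete (it is
computably reducible to `=^ce`). -/
theorem result (ar : ℕ → ℕ) (har : Computable ar) : CELaws (constOps ar har) ∧ ∀ n ≥ 1,
    ¬ ClassACC (constOps ar har) n ∧ ¬ Complete (IsoRel (constOps ar har) n) ∧
      Le (IsoRel (constOps ar har) n) EqCE := by
  refine ⟨ceLaws ar har, fun n hn => ⟨not_classACC hn, fun hc => ?_, isoRel_le hn⟩⟩
  have h := ((Pool.Agent.Results.MP_f76ce6_lc.ConstantOperations.result.2 ar har).2 n hn).2.1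
    _ hc
  exact h.2 ⟨id, Computable.id, fun _ _ => Iff.rfl⟩

end Pool.Agent.Results.MP_aec1d5_lc.FailsACCNotComplete
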